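import Pool.Agent.Helper43.FV.Spec

namespace Pool.Agent.Helper90.FV

open Pool.Agent.Helper43.FV

theorem DEG_inv {F : Type} [Field F] [Algebra ℂ F] (w : Pl F) {x : F} (hx : x ≠ 0) :
    w.1 x⁻¹ = -w.1 x := by
  have h1 : w.1 (x * x⁻¹) = w.1 x + w.1 x⁻¹ := w.2.mul _ _ hx (inv_ne_zero hx)
  rw [mul_inv_cancel₀ hx] at h1
  have h2 : w.1 (1 : F) = 0 := by
    have := w.2.const 1
    rwa [map_one] at this
  omega

theorem DEG_adj {F : Type} [Field F] [Algebra ℂ F] (x : F) :
    IntermediateField.adjoin ℂ {x⁻¹} = IntermediateField.adjoin ℂ {x} := by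
  apply le_antisymm
  · rw [IntermediateField.adjoin_simple_le_iff]
    exact inv_mem (IntermediateField.mem_adjoin_simple_self ℂ x)
  · rw [IntermediateField.adjoin_simple_le_iff]
    have := inv_mem (IntermediateField.mem_adjoin_simple_self ℂ x⁻¹)
    rwa [inv_inv] at this

theorem st_DEG (hZ : ST_ZER) : ST_DEG := by
  intro F _ _ ff x hx
  by_cases hc : ∀ c : ℂ, x ≠ algebraMap ℂ F c
  · have hc' : ∀ c : ℂ, x⁻¹ ≠ algebraMap ℂ F c := by
      intro c h
      apply hc c⁻¹
      rw [map_inv₀, ← h, inv_inv]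
    obtain ⟨h0, s, hs, hsum⟩ := hZ F ff x hc
    obtain ⟨h0', s', hs', hsum'⟩ := hZ F ff x⁻¹ hc'
    rw [DEG_adj] at h0' hsum'
    classical
    have hdis : Disjoint s s' := by
      rw [Finset.disjoint_left]
      intro w h1 h2
      rw [hs] at h1
      rw [hs', DEG_inv w hx] at h2
      omega
    have hsup : ∀ w : Pl F, w.1 x ≠ 0 → w ∈ s ∪ s' := by
      intro w h
      rw [Finset.mem_union, hs, hs', DEG_inv w hx]
      omega
    refine ⟨Finsupp.onFinset (s ∪ s') (fun w => w.1 x) hsup, ?_, ?_, fun _ => ⟨h0, ?_⟩⟩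
    · intro w
      rfl
    · unfold dg
      rw [Finsupp.onFinset_sum _ (fun _ => rfl), Finset.sum_union hdis, hsum]
      have : ∑ w ∈ s', w.1 x = -∑ w ∈ s', w.1 x⁻¹ := by
        rw [← Finset.sum_neg_distrib]
        apply Finset.sum_congr rfl
        intro w _
        rw [DEG_inv w hx, neg_neg]
      rw [this, hsum', add_neg_cancel]
    · rw [Finsupp.onFinset_sum _ (fun _ => by simp), Finset.sum_union hdis]
      have h1 : ∑ w ∈ s, max 0 (-w.1 x) = 0 := by
        apply Finset.sum_eq_zero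
        intro w hw
        rw [hs] at hw
        exact max_eq_left (by omega)
      have h2 : ∑ w ∈ s', max 0 (-w.1 x) = ∑ w ∈ s', w.1 x⁻¹ := by
        apply Finset.sum_congr rfl
        intro w hw
        rw [hs'] at hw
        rw [← DEG_inv w hx]
        exact max_eq_right hw.le
      rw [h1, h2, hsum', zero_add]
  · push Not at hc
    obtain ⟨c, hc⟩ := hc
    refine ⟨0, ?_, ?_, fun h => absurd hc (h c)⟩
    · intro w
      rw [hc, w.2.const]
      rfl
    · unfold dg
      exact Finsupp.sum_zero_index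

end Pool.Agent.Helper90.FV
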