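import Pool.Agent.Helper43.FV.Spec

namespace Pool.Agent.Helper90.FV

open Pool.Agent.Helper43.FV

open Classical in
theorem st_ELL (hW : ST_ELLW) (hT : ST_ELLT) (hI : ST_ELLI) (hD : ST_ELLD) (hF : ST_ELLF) :
    ST_ELL := by
  intro F _ _ ff hg
  obtain ⟨o, A, B, x, y, wd⟩ := hW F ff hg
  obtain ⟨T, Tinj, Ttr⟩ := hT F o A B x y ff wd
  obtain ⟨h1, h2⟩ := hD A B wd.disc
  obtain ⟨S, i1, i2, i3, i4, θ, h3, h4, h5⟩ := hF F o A B x y ff wd T Ttr
  exact ⟨(WC A B).Point, inferInstance, T, S, i1, i3, θ,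
    { inj := Tinj
      fin := hI F o A B x y ff wd T Tinj Ttr
      div := h1
      two := h2
      dom := i2
      ft := i4
      dim := h3
      cof := h4
      fam := h5 }⟩

end Pool.Agent.Helper90.FV
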