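import Pool.Agent.Helper43.FV.Spec

namespace Pool.Agent.Helper90.FV

open Pool.Agent.Helper43.FV
open IsDedekindDomain

theorem HT1_core {R K : Type} [CommRing R] [IsDomain R] [IsNoetherianRing R]
    [IsIntegrallyClosed R] [Field K] [Algebra R K] [IsFractionRing R K] (P : Ideal R)
    [hPp : P.IsPrime] (hP : P ≠ ⊥)
    (hmin : ∀ P' : Ideal R, P'.IsPrime → P' ≤ P → P' = ⊥ ∨ P' = P) :
    ∃ w : Valuation K (WithZero (Multiplicative ℤ)),
      (∀ r : R, w (algebraMap R K r) ≤ 1) ∧ (∀ r : R, w (algebraMap R K r) < 1 ↔ r ∈ P) ∧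
      (∃ t : K, w t = WithZero.exp (-1 : ℤ)) ∧
      ∀ f : K, w f ≤ 1 → ∃ p q : R, q ∉ P ∧ f * algebraMap R K q = algebraMap R K p := by
  have hS : P.primeCompl ≤ nonZeroDivisors R := P.primeCompl_le_nonZeroDivisors
  let A : Subalgebra R K := Localization.subalgebra.ofField K P.primeCompl hS
  have hloc : IsLocalization.AtPrime A P :=
    Localization.subalgebra.isLocalization_ofField K P.primeCompl hS
  have hfr : IsFractionRing A K := inferInstance
  have hlr : IsLocalRing A := IsLocalization.AtPrime.isLocalRing A P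
  have hnoeth : IsNoetherianRing A := IsLocalization.isNoetherianRing P.primeCompl A inferInstance
  have hic : IsIntegrallyClosed A := isIntegrallyClosed_of_isLocalization A P.primeCompl hS
  have hinj : Function.Injective (algebraMap R A) := IsLocalization.injective A hS
  have hmm : ∀ x : R, algebraMap R A x ∈ IsLocalRing.maximalIdeal A ↔ x ∈ P := fun x =>
    IsLocalization.AtPrime.to_map_mem_maximal_iff A P x
  have hdim : ∀ q : Ideal A, q ≠ ⊥ → q.IsPrime → q = IsLocalRing.maximalIdeal A := by
    intro q hq0 hq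
    have hle : q ≤ IsLocalRing.maximalIdeal A := IsLocalRing.le_maximalIdeal hq.ne_top
    have h1 : q.comap (algebraMap R A) ≤ P := by
      intro x hx
      rw [Ideal.mem_comap] at hx
      exact (hmm x).mp (hle hx)
    have h2 : q.comap (algebraMap R A) ≠ ⊥ := by
      intro h
      apply hq0
      rw [eq_bot_iff]
      intro a ha
      obtain ⟨⟨r, s⟩, hrs⟩ := IsLocalization.surj P.primeCompl a
      have h3 : r ∈ q.comap (algebraMap R A) := by
        rw [Ideal.mem_comap, ← hrs]
        exact q.mul_mem_right _ ha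
      rw [h, Ideal.mem_bot] at h3
      simp only [h3, map_zero, mul_eq_zero] at hrs
      rcases hrs with h4 | h4
      · rw [h4]
        exact Ideal.zero_mem _
      · exfalso
        have h5 : (s : R) = 0 := hinj (by rw [h4, map_zero])
        exact s.2 (by rw [h5]; exact Ideal.zero_mem _)
    have h3 : q.comap (algebraMap R A) = P := by
      rcases hmin _ (Ideal.IsPrime.comap (algebraMap R A)) h1 with h | h
      · exact absurd h h2
      · exact h
    apply le_antisymm hle
    intro a ha
    obtain ⟨⟨r, s⟩, hrs⟩ := IsLocalization.surj P.primeCompl a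
    have h4 : algebraMap R A r ∈ IsLocalRing.maximalIdeal A := by
      rw [← hrs]
      exact Ideal.mul_mem_right _ _ ha
    have h5 : r ∈ q.comap (algebraMap R A) := by
      rw [h3]
      exact (hmm r).mp h4
    rw [Ideal.mem_comap, ← hrs] at h5
    rcases hq.mem_or_mem h5 with h6 | h6
    · exact h6
    · exfalso
      have h7 : (s : R) ∈ q.comap (algebraMap R A) := h6
      rw [h3] at h7
      exact s.2 h7
  have hm0 : IsLocalRing.maximalIdeal A ≠ ⊥ := by
    intro h
    apply hP
    rw [eq_bot_iff]
    intro x hx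
    have := (hmm x).mpr hx
    rw [h, Ideal.mem_bot] at this
    rw [Ideal.mem_bot]
    exact hinj (by rw [this, map_zero])
  have hd1 : Ring.DimensionLEOne A := ⟨fun {q} hq0 hq => by
    rw [hdim q hq0 hq]
    exact IsLocalRing.maximalIdeal.isMaximal A⟩
  have hded : IsDedekindDomain A := {}
  let v : HeightOneSpectrum A := ⟨IsLocalRing.maximalIdeal A, inferInstance, hm0⟩
  have htower : ∀ r : R, algebraMap R K r = algebraMap A K (algebraMap R A r) := fun r =>
    IsScalarTower.algebraMap_apply R A K r
  refine ⟨v.valuation K, ?_, ?_, ?_, ?_⟩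
  · intro r
    rw [htower]
    exact HeightOneSpectrum.valuation_le_one v _
  · intro r
    rw [htower, HeightOneSpectrum.valuation_lt_one_iff_mem]
    exact hmm r
  · exact v.valuation_exists_uniformizer K
  · intro f hf
    obtain ⟨a, ha⟩ := HeightOneSpectrum.mem_integers_of_valuation_le_one (R := A) K f (by
      intro v'
      have : v' = v := by
        ext1
        exact hdim _ v'.ne_bot v'.isPrime
      rw [this]
      exact hf)
    obtain ⟨⟨r, s⟩, hrs⟩ := IsLocalization.surj P.primeCompl a
    refine ⟨r, s, s.2, ?_⟩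
    rw [← ha, htower, htower, ← map_mul, hrs]

theorem st_HT1 : ST_HT1 := by
  intro K _ _ R hR P hPp hP hmin
  have := hR.fg
  have h1 : Algebra.FiniteType ℂ R := R.fg_iff_finiteType.mp hR.fg
  have h2 : IsNoetherianRing R := Algebra.FiniteType.isNoetherianRing ℂ R
  have h3 : IsFractionRing R K := by
    refine IsFractionRing.of_field R K fun z => ?_
    obtain ⟨p, q, hq, h⟩ := hR.frac z
    refine ⟨p, q, ?_⟩
    change z = (p : K) / (q : K)
    rw [eq_div_iff hq, h]
  have h4 : IsIntegrallyClosed R := by
    rw [isIntegrallyClosed_iff K]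
    intro x hx
    exact ⟨⟨x, hR.ic x hx⟩, rfl⟩
  obtain ⟨w, w1, w2, ⟨t, ht⟩, w3⟩ := HT1_core (K := K) P hP hmin
  have hne : ∀ f : K, f ≠ 0 → w f ≠ 0 := fun f hf => (Valuation.ne_zero_iff w).mpr hf
  have hle : ∀ f : K, f ≠ 0 → (0 ≤ -WithZero.log (w f) ↔ w f ≤ 1) := by
    intro f hf
    rw [← WithZero.log_le_log (hne f hf) one_ne_zero, WithZero.log_one]
    omega
  have hlt : ∀ f : K, f ≠ 0 → (0 < -WithZero.log (w f) ↔ w f < 1) := by
    intro f hf
    rw [← WithZero.log_lt_log (hne f hf) one_ne_zero, WithZero.log_one]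
    omega
  refine ⟨fun f => -WithZero.log (w f), ?_, ?_, ?_, ?_⟩
  · refine ⟨by simp, ?_, ?_, ?_, ?_⟩
    · intro f g hf hg
      rw [map_mul, WithZero.log_mul (hne f hf) (hne g hg)]
      ring
    · intro f g hf hg hfg
      have h := w.map_add f g
      rcases le_max_iff.mp h with h | h
      · have := (WithZero.log_le_log (hne _ hfg) (hne _ hf)).mpr h
        exact (min_le_left _ _).trans (by omega)
      · have := (WithZero.log_le_log (hne _ hfg) (hne _ hg)).mpr h
        exact (min_le_right _ _).trans (by omega)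
    · intro c
      by_cases hc : c = 0
      · simp [hc]
      · have e1 : w (algebraMap ℂ K c) ≤ 1 := w1 (algebraMap ℂ R c)
        have e2 : w (algebraMap ℂ K c⁻¹) ≤ 1 := w1 (algebraMap ℂ R c⁻¹)
        have e3 : w (algebraMap ℂ K c) * w (algebraMap ℂ K c⁻¹) = 1 := by
          rw [← map_mul, ← map_mul, mul_inv_cancel₀ hc, map_one, map_one]
        have e4 : w (algebraMap ℂ K c) = 1 := by
          apply le_antisymm e1
          rw [← e3]
          exact mul_le_of_le_one_right' e2
        rw [e4]
        simp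
    · refine ⟨t, ?_, ?_⟩
      · rintro rfl
        rw [map_zero] at ht
        exact WithZero.exp_ne_zero ht.symm
      · rw [ht, WithZero.log_exp]
        ring
  · intro r
    simp only
    by_cases hr : (r : K) = 0
    · simp [hr]
    · exact (hle _ hr).mpr (w1 r)
  · intro r hr
    have hr' : (r : K) ≠ 0 := fun h => hr (Subtype.ext h)
    simp only
    rw [hlt _ hr']
    exact w2 r
  · intro f hf
    by_cases hf0 : f = 0
    · refine ⟨0, 1, one_ne_zero, ?_, ?_⟩
      · simp
      · simp [hf0]
    · obtain ⟨p, q, hq, h⟩ := w3 f ((hle f hf0).mp hf)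
      have hq0 : q ≠ 0 := by
        rintro rfl
        exact hq (Ideal.zero_mem _)
      have hq0' : (q : K) ≠ 0 := fun h => hq0 (Subtype.ext h)
      refine ⟨p, q, hq0, ?_, h⟩
      simp only
      have e1 : ¬ w (algebraMap R K q) < 1 := fun h' => hq ((w2 q).mp h')
      have e2 : w (q : K) = 1 := le_antisymm (w1 q) (not_lt.mp e1)
      rw [e2]
      simp

end Pool.Agent.Helper90.FV
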