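import Pool.Agent.Helper43.FV.Spec

namespace Pool.Agent.Helper90.FV

open Pool.Agent.Helper43.FV

theorem RBP_dgsub {F : Type} [Field F] [Algebra ℂ F] (D E : Dv F) :
    dg (D - E) = dg D - dg E := by
  unfold dg
  rw [Finsupp.sum_sub_index (fun _ _ _ => rfl)]

theorem RBP_dgnsmul {F : Type} [Field F] [Algebra ℂ F] (n : ℕ) (D : Dv F) :
    dg (n • D) = n * dg D := by
  induction n with
  | zero => simp [dg]
  | succ n ih =>
    rw [succ_nsmul]
    have : dg (n • D + D) = dg (n • D) + dg D := by
      unfold dg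
      rw [Finsupp.sum_add_index' (fun _ => rfl) (fun _ _ _ => rfl)]
    rw [this, ih]
    push_cast
    ring

theorem RBP_dgsingle {F : Type} [Field F] [Algebra ℂ F] (w : Pl F) (n : ℤ) :
    dg (Finsupp.single w n : Dv F) = n := by
  unfold dg
  rw [Finsupp.sum_single_index rfl]

theorem RBP_ne {F : Type} [Field F] [Algebra ℂ F] {D : Dv F} (h : 0 < ll D) :
    ∃ f ∈ LL D, f ≠ 0 := by
  by_contra hcon
  push Not at hcon
  have h1 : LL D = ⊥ := by
    rw [eq_bot_iff]
    intro f hf
    exact hcon f hf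
  unfold ll at h
  rw [h1, finrank_bot] at h
  exact absurd h (by norm_num)

theorem st_RBP (hR : ST_RIE) (hDeg : ST_DEG) : ST_RBP := by
  intro F _ _ ff
  obtain ⟨hfin, g, c, hge, hlarge⟩ := hR F ff
  refine ⟨⟨c + 1, ?_⟩, ?_⟩
  · intro D hD w
    have h1 : ll D = dg D + 1 - g := hlarge D (by omega)
    have hdg : dg (D - Finsupp.single w 1) = dg D - 1 := by
      rw [RBP_dgsub, RBP_dgsingle]
    have h2 : ll (D - Finsupp.single w 1) = dg D - 1 + 1 - g := by
      rw [← hdg]
      exact hlarge _ (by omega)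
    have hle : ¬ (LL D ≤ LL (D - Finsupp.single w 1)) := by
      intro hle
      have := hfin (D - Finsupp.single w 1)
      have h3 := Submodule.finrank_mono hle
      unfold ll at h1 h2
      omega
    obtain ⟨f, hf1, hf2⟩ := SetLike.not_le_iff_exists.mp hle
    have hf0 : f ≠ 0 := by
      rintro rfl
      exact hf2 (Submodule.zero_mem _)
    refine ⟨f, hf1, hf0, ?_⟩
    rw [mem_LL] at hf2
    push Not at hf2
    obtain ⟨-, v, hv⟩ := hf2
    have hfv := hf1 hf0 v
    rw [Finsupp.sub_apply] at hv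
    by_cases hvw : w = v
    · subst hvw
      rw [Finsupp.single_eq_same] at hv
      omega
    · rw [Finsupp.single_eq_of_ne (Ne.symm hvw)] at hv
      omega
  · intro D hD z
    obtain ⟨P, hP0, hPz⟩ : ∃ P : Dv F, (∀ v, 0 ≤ P v) ∧ (z ≠ 0 → ∀ v : Pl F, 0 ≤ v.1 z + P v) := by
      by_cases hz : z = 0
      · exact ⟨0, fun _ => le_rfl, fun h => absurd hz h⟩
      · obtain ⟨Z, hZ, -⟩ := hDeg F ff z hz
        refine ⟨Z.mapRange (fun n => max 0 (-n)) (by simp), fun v => ?_, fun _ v => ?_⟩
        · rw [Finsupp.mapRange_apply]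
          exact le_max_left _ _
        · rw [Finsupp.mapRange_apply, hZ v]
          have := le_max_right 0 (-v.1 z)
          omega
    refine ⟨(dg P + g).toNat, fun n hn => ?_⟩
    have h1 : dg (n • D - P) = n * dg D - dg P := by
      rw [RBP_dgsub, RBP_dgnsmul]
    have h2 := hge (n • D - P)
    have h3 : dg P + g ≤ n := by
      have := Int.self_le_toNat (dg P + g)
      omega
    have h4 : (n : ℤ) ≤ n * dg D := by
      nlinarith [Int.natCast_nonneg n]
    obtain ⟨f, hf, hf0⟩ := RBP_ne (D := n • D - P) (by omega)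
    have h5 := hf hf0
    refine ⟨f, fun _ v => ?_, hf0, fun hzf v => ?_⟩
    · have := h5 v
      have h6 := hP0 v
      rw [Finsupp.sub_apply] at this
      omega
    · have hz : z ≠ 0 := left_ne_zero_of_mul hzf
      have := h5 v
      have h6 := hPz hz v
      rw [Finsupp.sub_apply] at this
      rw [v.2.mul _ _ hz hf0]
      omega

end Pool.Agent.Helper90.FV
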